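import Mathlib

/-!
# MP_5e5085_pr: an SFT on `ℤ²` whose finitary codings all have infinite moments.  Definitions and
module statements (helper50).

Idea.  `T` = a rigid nearest neighbour SFT on the grid (`IsT`): level-k tiles of side `ell k`, with
`ell (k+1) = ell k * NN k`, `NN (k+1) = 2 ^ (NN k - 1)`, the position of a level-k tile inside the
level-(k+1) tile being written in binary on the `NN k - 1` level-k rows (resp. columns) of the tile.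
`S` = all elastic deformations `x ↦ τ (h x)` of points `τ` of `T`.
-/

set_option autoImplicit false

open MeasureTheory

namespace Pool.Agent.Helper50_SFT

/-! ## The rigid SFT -/

/-- content of an edge: `t` = the left (lower) end of the edge is an `L`- (`B`-) cell, `b` = bit of
the tile number, `F` = first row (column) of the tile, `Z` = zero flag, `a` = running `all bits so far
are zero`, `c` = carry, `K` = copy of the other zero flag. -/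
structure Ct where
  t : Bool
  b : Bool
  F : Bool
  Z : Bool
  a : Bool
  c : Bool
  K : Bool
deriving DecidableEq

noncomputable instance : Fintype Ct :=
  Fintype.ofInjective (fun s : Ct => (s.t, s.b, s.F, s.Z, s.a, s.c, s.K)) (by
    rintro ⟨t, b, F, Z, a, c, K⟩ ⟨t', b', F', Z', a', c', K'⟩ h
    simp only [Prod.mk.injEq] at h
    obtain ⟨rfl, rfl, rfl, rfl, rfl, rfl, rfl⟩ := h
    rfl)

inductive Ty
  | A | L | B
deriving DecidableEq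

noncomputable instance : Fintype Ty :=
  Fintype.ofSurjective (fun n : Fin 3 => match n with
    | 0 => Ty.A
    | 1 => Ty.L
    | 2 => Ty.B) (by
    rintro (_ | _ | _)
    · exact ⟨0, rfl⟩
    · exact ⟨1, rfl⟩
    · exact ⟨2, rfl⟩)

/-- a cell: position mod 3 (level 0), type, contents of the left, right, lower (down), upper edge -/
structure Cell where
  px : ZMod 3
  py : ZMod 3
  ty : Ty
  l : Ct
  r : Ct
  d : Ct
  u : Ct
deriving DecidableEq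

noncomputable instance : Fintype Cell :=
  Fintype.ofInjective (fun s : Cell => (s.px, s.py, s.ty, s.l, s.r, s.d, s.u)) (by
    rintro ⟨t, b, F, Z, a, c, K⟩ ⟨t', b', F', Z', a', c', K'⟩ h
    simp only [Prod.mk.injEq] at h
    obtain ⟨rfl, rfl, rfl, rfl, rfl, rfl, rfl⟩ := h
    rfl)

def okA (l r d u : Ct) : Prop :=
  r.t = false ∧ u.t = false ∧ d.F = l.t ∧ l.F = d.t ∧ u.Z = d.Z ∧ r.Z = l.Z ∧
  (if d.F = true then
      u.a = (d.a && !l.b) ∧ u.c = (d.c && l.b) ∧ r.b = xor l.b d.c ∧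
        (l.F = true → d.a = true ∧ d.c = true)
    else d.a = d.Z ∧ u.a = u.Z ∧ r.b = l.b) ∧
  (if l.F = true then
      r.a = (l.a && !d.b) ∧ r.c = (l.c && d.b) ∧ u.b = xor d.b l.c ∧
        (d.F = true → l.a = true ∧ l.c = true)
    else l.a = l.Z ∧ r.a = r.Z ∧ u.b = d.b) ∧
  (d.F = true → l.F = true → l.K = d.Z ∧ d.K = l.Z)

def okL (l r d u : Ct) : Prop :=
  u = d ∧ r.t = true ∧ r.b = l.b ∧ r.Z = l.Z ∧ l.a = l.Z ∧
    (r.F = true → r.K = false → d.t = r.Z)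

def okB (l r d u : Ct) : Prop :=
  r = l ∧ u.t = true ∧ u.b = d.b ∧ u.Z = d.Z ∧ d.a = d.Z ∧
    (u.F = true → u.K = false → l.t = u.Z)

/-- local rule at one cell -/
def Cell.ok (s : Cell) : Prop :=
  (s.px ≠ 0 → s.py ≠ 0 → s.ty = Ty.A) ∧
  (s.px = 0 → s.py ≠ 0 → s.ty = Ty.L) ∧
  (s.px ≠ 0 → s.py = 0 → s.ty = Ty.B) ∧
  (s.ty = Ty.A → okA s.l s.r s.d s.u) ∧
  (s.ty = Ty.L → okL s.l s.r s.d s.u) ∧
  (s.ty = Ty.B → okB s.l s.r s.d s.u)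

/-- points of the rigid SFT -/
structure IsT (τ : ℤ → ℤ → Cell) : Prop where
  ok : ∀ x y, (τ x y).ok
  adjH : ∀ x y, (τ x y).r = (τ (x + 1) y).l
  adjV : ∀ x y, (τ x y).u = (τ x (y + 1)).d
  pxH : ∀ x y, (τ (x + 1) y).px = (τ x y).px + 1
  pyH : ∀ x y, (τ (x + 1) y).py = (τ x y).py
  pxV : ∀ x y, (τ x (y + 1)).px = (τ x y).px
  pyV : ∀ x y, (τ x (y + 1)).py = (τ x y).py + 1

/-- tile sizes: `3, 4, 8, 128, 2^127, ...` -/
def NN : ℕ → ℕ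
  | 0 => 3
  | k + 1 => 2 ^ (NN k - 1)

/-- `1, 3, 12, 96, 12288, ...` -/
def ell : ℕ → ℕ
  | 0 => 1
  | k + 1 => ell k * NN k

/-- MODULE T1 (structure of the rigid SFT).  For every `k` there is a function reading the horizontal
position mod `ell (k+1)` from a window of radius `3 * ell k`. -/
def PhaseStatement : Prop := ∀ k : ℕ, ∃ φ : (ℤ → ℤ → Cell) → ZMod (ell (k + 1)),
  (∀ w w' : ℤ → ℤ → Cell,
    (∀ i j : ℤ, |i| ≤ 3 * ell k → |j| ≤ 3 * ell k → w i j = w' i j) → φ w = φ w') ∧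
  ∀ τ, IsT τ → ∀ x y x' y' : ℤ,
    φ (fun i j => τ (x + i) (y + j)) - φ (fun i j => τ (x' + i) (y' + j)) =
      ((x - x' : ℤ) : ZMod (ell (k + 1)))

/-- MODULE T2 (a Toeplitz point of the rigid SFT). -/
def ToeplitzStatement : Prop := ∃ τ, IsT τ ∧ ∀ (k : ℕ) (x y : ℤ),
  ¬ ((ell k : ℤ) ∣ x) → ¬ ((ell k : ℤ) ∣ y) →
    ∀ m n : ℤ, τ (x + m * ell (k + 1)) (y + n * ell (k + 1)) = τ x y

/-- MODULE G (growth). -/
def GrowthStatement : Prop := ∀ (α M : ℝ), 0 < α → ∃ k r : ℕ,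
  1000 * (r + (50 * ell k + 70) + 1) ≤ ell (k + 1) ∧
    M * (2 * (50 * ell k + 70 : ℕ) + 1 : ℝ) ^ 2 ≤ (r : ℝ) ^ α

/-! ## Elastic deformations -/

abbrev Z2 := Fin 2 → ℤ

noncomputable def box (r : ℕ) : Finset Z2 := Fintype.piFinset fun _ => Finset.Icc (-(r : ℤ)) (r : ℤ)

/-- elastic maps, close to `x ↦ x / 10` -/
structure Elastic (h : Z2 → Z2) : Prop where
  affine : ∀ (x y : Z2) (c : Fin 2),
    |10 * ((h x c - h y c : ℤ) : ℝ) - ((x c - y c : ℤ) : ℝ)| ≤ dist x y / 10 + 10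
  step : ∀ x y : Z2, dist x y ≤ 1 → dist (h x) (h y) ≤ 1
  surj : ∀ x u : Z2, dist u (h x) ≤ 1 → ∃ y, dist y x ≤ 16 ∧ h y = u

/-- allowed window patterns of the elastic SFT -/
def Allowed (p : box 100 → Cell) : Prop :=
  ∃ h : Z2 → Z2, Elastic h ∧ ∃ τ, IsT τ ∧ ∀ u : box 100, p u = τ (h u.1 0) (h u.1 1)

/-- the elastic SFT -/
def InS (X : Z2 → Cell) : Prop := ∀ v : Z2, Allowed (fun u : box 100 => X (v + u.1))

/-- MODULE E1 (gluing): every point of the elastic SFT is a deformation of ONE point of `T`. -/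
def GlueStatement : Prop := ∀ X : Z2 → Cell, InS X → ∃ (H : Z2 → Z2) (τ : ℤ → ℤ → Cell), IsT τ ∧
  (∀ x, X x = τ (H x 0) (H x 1)) ∧
  (∀ (x y : Z2) (c : Fin 2),
    |10 * ((H x c - H y c : ℤ) : ℝ) - ((x c - y c : ℤ) : ℝ)| ≤ 4 / 10 * dist x y + 40) ∧
  (∀ x y : Z2, dist x y ≤ 1 → dist (H x) (H y) ≤ 1) ∧
  (∀ x u : Z2, dist u (H x) ≤ 1 → ∃ y, dist y x ≤ 16 ∧ H y = u)

/-- MODULE E2 (reading the phase in the elastic SFT). -/
def ReadStatement : Prop := ∀ k : ℕ, ∃ Φ : (Z2 → Cell) → ZMod (ell (k + 1)),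
  (∀ X X' : Z2 → Cell, (∀ v : Z2, dist v 0 ≤ ((50 * ell k + 70 : ℕ) : ℝ) → X v = X' v) →
    Φ X = Φ X') ∧
  ∀ X, InS X → ∃ H : Z2 → ℤ, (∀ x, Φ (fun v => X (x + v)) = (H x : ZMod (ell (k + 1)))) ∧
    ∀ x y : Z2, |10 * ((H x - H y : ℤ) : ℝ) - ((x 0 - y 0 : ℤ) : ℝ)| ≤ 4 / 10 * dist x y + 40

/-! ## Lower bound -/

/-- MODULE LB (phases and independence).  `y ↦ (x ↦ f (fun w => y (w + x)))` is the factor. -/
def LowerStatement : Prop := ∀ (K : Type) [Fintype K] [MeasurableSpace K]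
  [MeasurableSingletonClass K] (μ : Measure ℝ) [IsProbabilityMeasure μ] (f : (Z2 → ℝ) → K),
  Measurable f → ∀ (p ρ r : ℕ), 1000 * (r + ρ + 1) ≤ p → ∀ Φ : (Z2 → K) → ZMod p,
  (∀ X X' : Z2 → K, (∀ v : Z2, dist v 0 ≤ (ρ : ℝ) → X v = X' v) → Φ X = Φ X') →
  (∀ᵐ y ∂(Measure.infinitePi fun _ : Z2 => μ), ∃ H : Z2 → ℤ,
    (∀ x, Φ (fun v => f (fun w => y (w + (x + v)))) = (H x : ZMod p)) ∧
    ∀ x x' : Z2, |10 * ((H x - H x' : ℤ) : ℝ) - ((x 0 - x' 0 : ℤ) : ℝ)| ≤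
      4 / 10 * dist x x' + 40) →
  ∃ B : Set (Z2 → ℝ), MeasurableSet B ∧
    (∀ y ∈ B, ∃ y' : Z2 → ℝ, (∀ u : Z2, ‖u‖ ≤ (r : ℝ) → y' u = y u) ∧ f y' ≠ f y) ∧
    ENNReal.ofReal (1 / (8 * (2 * ρ + 1) ^ 2)) ≤ (Measure.infinitePi fun _ : Z2 => μ) B

/-! ## Pieces (toast) -/

/-- scale parameters -/
structure Scales where
  ρ : ℕ → ℕ
  T : ℕ → ℕ
  K : ℕ → ℕ
  L : ℕ → ℕ
  G : ℕ → ℕ
  Tp : ℕ → ℕ
  R : ℕ → ℕ
  hG : ∀ i j, i < j → K i + L i ≤ G j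
  hK : ∀ j, T j + G j ≤ K j
  hL : ∀ j, 2 * ρ j + 2 * G j ≤ L j
  hTp : ∀ j, T j + G j + 1 ≤ Tp j
  hR : ∀ j, 2 * ρ j + 4 * Tp j + G j ≤ R j
  hR' : ∀ i j, i < j → R i + ρ j + G j ≤ R j

/-- raw cell of the stage-`j` seed `v` -/
def rawCell (S : Scales) (σ : ℕ → Z2 → Prop) (j : ℕ) (v : Z2) : Set Z2 :=
  {x | σ j v ∧ dist x v ≤ S.ρ j ∧ ∀ w, σ j w → w ≠ v → dist x v + 4 * S.Tp j ≤ dist x w}

/-- stage-`j` piece with seed `v`: the raw cell together with all pieces of lower stages near it -/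
def piece (S : Scales) (σ : ℕ → Z2 → Prop) (j : ℕ) (v : Z2) : Set Z2 :=
  rawCell S σ j v ∪ {x | ∃ (i : Fin j) (w : Z2), x ∈ piece S σ i w ∧
    ∃ a ∈ rawCell S σ j v, ∃ e ∈ piece S σ i w, dist a e ≤ S.K i}
termination_by j
decreasing_by all_goals exact i.2

/-- abstract toast property used by the layer construction -/
structure Toast (T L : ℕ → ℕ) (D : ℕ → Z2 → Set Z2) : Prop where
  self : ∀ j v x, x ∈ D j v → v ∈ D j v
  diam : ∀ j v x y, x ∈ D j v → y ∈ D j v → dist x y ≤ L j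
  sep : ∀ j v w x y, v ≠ w → x ∈ D j v → y ∈ D j w → (T j : ℝ) < dist x y
  nest : ∀ i j v w x y, i < j → x ∈ D i w → y ∈ D j v → dist x y ≤ T i → D i w ⊆ D j v

/-- MODULE F1 (pieces). -/
def PieceStatement : Prop := ∀ (S : Scales),
  (∀ σ : ℕ → Z2 → Prop, Toast S.T S.L (piece S σ)) ∧
  (∀ (σ : ℕ → Z2 → Prop) (j : ℕ) (v x : Z2), x ∈ piece S σ j v → dist x v ≤ S.ρ j + S.G j) ∧
  (∀ (σ σ' : ℕ → Z2 → Prop) (j : ℕ) (v : Z2),
    (∀ i ≤ j, ∀ u : Z2, dist u v ≤ S.R j → (σ i u ↔ σ' i u)) → piece S σ j v = piece S σ' j v) ∧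
  (∀ (σ : ℕ → Z2 → Prop) (t : Z2) (j : ℕ) (v x : Z2),
    x ∈ piece S (fun i u => σ i (u + t)) j v ↔ x + t ∈ piece S σ j (v + t))

/-! ## Layers -/

/-- the defect `q` that has to be added on the piece with seed `v` -/
noncomputable def defect (P : ℕ → ℕ) (c : Fin 2) (j : ℕ) (G : Z2 → ℝ) (v y : Z2) : ℝ :=
  ((y c - v c : ℤ) : ℝ) - G y + P j * (round (G v / P j) : ℝ)

open Classical in
/-- stage-`j` layer with slope `1 / d j` -/
noncomputable def lay (P d : ℕ → ℕ) (D : ℕ → Z2 → Set Z2) (c : Fin 2) (j : ℕ) (G : Z2 → ℝ) :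
    Z2 → ℝ := fun x =>
  G x + (⨆ p : Z2 × Z2, if p.2 ∈ D j p.1 then
      max 0 (defect P c j G p.1 p.2 - dist x p.2 / d j) else 0)
    - (⨆ p : Z2 × Z2, if p.2 ∈ D j p.1 then
      max 0 (-defect P c j G p.1 p.2 - dist x p.2 / d j) else 0)

/-- apply the layers `m-1, ..., 0` (in this order) -/
noncomputable def lays (P d : ℕ → ℕ) (D : ℕ → Z2 → Set Z2) (c : Fin 2) :
    ℕ → (Z2 → ℝ) → (Z2 → ℝ)
  | 0, G => G
  | m + 1, G => lays P d D c m (lay P d D c m G)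

/-- the field `Ψ` (coordinate `c`) of a stage-`k` piece with seed `v` -/
noncomputable def Psi (P d : ℕ → ℕ) (D : ℕ → Z2 → Set Z2) (c : Fin 2) (k : ℕ) (v : Z2) :
    Z2 → ℝ := lays P d D c k (fun x => ((x c - v c : ℤ) : ℝ))

/-- numerical conditions for the layers -/
structure LayPar (P d T L : ℕ → ℕ) : Prop where
  hP : ∀ j, 6 ≤ P j
  hdvd : ∀ i j, i ≤ j → P i ∣ P j
  hd0 : 30 ≤ d 0
  hd : ∀ j, 3 * d j ≤ d (j + 1)
  hdL : ∀ j, L j ≤ d (j + 1)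
  hT : ∀ j, P j * d j ≤ T j

/-- MODULE F2 (layers): Lipschitz bound, consistency, locality, equivariance. -/
def LayerStatement : Prop := ∀ (P d T L : ℕ → ℕ), LayPar P d T L → ∀ (c : Fin 2),
  (∀ D, Toast T L D → ∀ (k : ℕ) (v x y : Z2),
    |Psi P d D c k v x - Psi P d D c k v y - ((x c - y c : ℤ) : ℝ)| ≤ dist x y / 10) ∧
  (∀ D, Toast T L D → ∀ (i j : ℕ) (v w : Z2), i ≤ j → ∀ x ∈ D i v, x ∈ D j w →
    ∃ n : ℤ, Psi P d D c j w x = Psi P d D c i v x + P i * n) ∧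
  (∀ D D', Toast T L D → Toast T L D' → ∀ (k : ℕ) (v : Z2), D k v = D' k v →
    (∀ i < k, ∀ w, (((D i w).Nonempty ∧ D i w ⊆ D k v) ∨ ((D' i w).Nonempty ∧ D' i w ⊆ D k v)) →
      D i w = D' i w) →
    ∀ x ∈ D k v, Psi P d D c k v x = Psi P d D' c k v x) ∧
  (∀ (D : ℕ → Z2 → Set Z2) (t : Z2) (k : ℕ) (v x : Z2),
    Psi P d (fun i w => {z | z + t ∈ D i (w + t)}) c k v x = Psi P d D c k (v + t) (x + t))

/-! ## Probability of coverage -/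

/-- Lebesgue measure on `[0,1]` as a measure on `ℝ` -/
noncomputable def unif : Measure ℝ := volume.restrict (Set.Icc (0 : ℝ) 1)

/-- MODULE F3 (choice of density and radius at one stage). -/
def ChooseStatement : Prop := ∀ j T₀ : ℕ, ∃ (ρ : ℕ) (q : ℝ), 0 < q ∧ q < 1 ∧ ∀ x : Z2,
  (Measure.infinitePi fun _ : Z2 => unif)
    {y | ¬ ∃ v, y v < q ∧ ∀ u : Z2, dist u x ≤ j → dist u v ≤ ρ ∧
      ∀ w, y w < q → w ≠ v → dist u v + 4 * T₀ ≤ dist u w} ≤ ENNReal.ofReal ((1 / 2) ^ j)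

/-- MODULE F4 (the field as a factor; from F1, F2, F3). -/
def FieldStatement : Prop := ∀ P : ℕ → ℕ, (∀ j, 6 ≤ P j) → (∀ i j, i ≤ j → P i ∣ P j) →
  ∃ (D : (Z2 → ℝ) → ℕ → Z2 → Set Z2) (Ψ : (Z2 → ℝ) → ℕ → Z2 → Fin 2 → Z2 → ℝ) (rr : ℕ → ℕ),
    (∀ y t j v x, x ∈ D (fun w => y (w + t)) j v ↔ x + t ∈ D y j (v + t)) ∧
    (∀ y t j v c x, Ψ (fun w => y (w + t)) j v c x = Ψ y j (v + t) c (x + t)) ∧
    (∀ j (y y' : Z2 → ℝ), (∀ u : Z2, ‖u‖ ≤ (rr j : ℝ) → y' u = y u) → ∀ v, 0 ∈ D y j v →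
      0 ∈ D y' j v ∧ ∀ c, Ψ y' j v c 0 = Ψ y j v c 0) ∧
    (∀ j v c (I : Set ℝ), MeasurableSet {y | 0 ∈ D y j v ∧ Ψ y j v c 0 ∈ I}) ∧
    (∀ y j v c x x', |Ψ y j v c x - Ψ y j v c x' - ((x c - x' c : ℤ) : ℝ)| ≤ dist x x' / 10) ∧
    (∀ y i j v w x, i ≤ j → x ∈ D y i v → x ∈ D y j w → ∀ c, ∃ n : ℤ,
      Ψ y j w c x = Ψ y i v c x + P i * n) ∧
    (∀ᵐ y ∂(Measure.infinitePi fun _ : Z2 => unif), ∀ (x : Z2) (W : ℕ), ∀ᶠ j in Filter.atTop,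
      ∃ v, ∀ u : Z2, dist u x ≤ W → u ∈ D y j v)

/-- MODULE X (existence part: a finitary factor in the elastic SFT; from T2 and F4). -/
def ExistStatement : Prop := ∃ f : (Z2 → ℝ) → Cell,
  (∀ s : Cell, MeasurableSet (f ⁻¹' {s})) ∧
  (∀ᵐ y ∂(Measure.infinitePi fun _ : Z2 => unif), ∃ r : ℕ, ∀ y' : Z2 → ℝ,
    (∀ u : Z2, ‖u‖ ≤ (r : ℝ) → y' u = y u) → f y' = f y) ∧
  (∀ᵐ y ∂(Measure.infinitePi fun _ : Z2 => unif), InS (fun v => f (fun w => y (w + v))))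

end Pool.Agent.Helper50_SFT
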