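import Pool.Agent.Helper50_SFT.Defs

/-! # F4: the field as a factor (module F4 of MP_5e5085_pr) -/

set_option autoImplicit false

open MeasureTheory Filter

namespace Pool.Agent.Helper50_SFT

namespace F4

/-- recursion state: `G`, `∑ R`, `d` -/
def st (P : ℕ → ℕ) (ρc : ℕ → ℕ → ℕ) : ℕ → ℕ × ℕ × ℕ
  | 0 => (0, 0, 30)
  | j + 1 =>
    let s := st P ρc j
    let G := s.1
    let sR := s.2.1
    let d := s.2.2
    let T := P j * d
    let K := T + G
    let Tp := T + G + 1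
    let ρ := ρc j Tp
    let L := 2 * ρ + 2 * G
    let R := sR + 2 * ρ + 4 * Tp + 2 * G
    (G + K + L, sR + R, 3 * d + L)

variable (P : ℕ → ℕ) (ρc : ℕ → ℕ → ℕ)

def G (j : ℕ) : ℕ := (st P ρc j).1
def sR (j : ℕ) : ℕ := (st P ρc j).2.1
def d (j : ℕ) : ℕ := (st P ρc j).2.2
def T (j : ℕ) : ℕ := P j * d P ρc j
def K (j : ℕ) : ℕ := T P ρc j + G P ρc j
def Tp (j : ℕ) : ℕ := T P ρc j + G P ρc j + 1
def ρ (j : ℕ) : ℕ := ρc j (Tp P ρc j)
def L (j : ℕ) : ℕ := 2 * ρ P ρc j + 2 * G P ρc j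
def R (j : ℕ) : ℕ := sR P ρc j + 2 * ρ P ρc j + 4 * Tp P ρc j + 2 * G P ρc j

lemma G_succ (j : ℕ) : G P ρc (j + 1) = G P ρc j + K P ρc j + L P ρc j := rfl
lemma sR_succ (j : ℕ) : sR P ρc (j + 1) = sR P ρc j + R P ρc j := rfl
lemma d_succ (j : ℕ) : d P ρc (j + 1) = 3 * d P ρc j + L P ρc j := rfl

lemma hG (i j : ℕ) (hij : i < j) : K P ρc i + L P ρc i ≤ G P ρc j := by
  induction j, hij using Nat.le_induction with
  | base => rw [Nat.succ_eq_add_one, G_succ]; omega
  | succ j _ ih => rw [G_succ]; omega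

lemma hsR (i j : ℕ) (hij : i < j) : R P ρc i ≤ sR P ρc j := by
  induction j, hij using Nat.le_induction with
  | base => rw [Nat.succ_eq_add_one, sR_succ]; omega
  | succ j _ ih => rw [sR_succ]; omega

def S : Scales where
  ρ := ρ P ρc
  T := T P ρc
  K := K P ρc
  L := L P ρc
  G := G P ρc
  Tp := Tp P ρc
  R := R P ρc
  hG := hG P ρc
  hK _ := le_rfl
  hL _ := le_rfl
  hTp _ := le_rfl
  hR j := by unfold R; omega
  hR' i j hij := by
    have := hsR P ρc i j hij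
    unfold R at this ⊢
    omega

lemma layPar (h6 : ∀ j, 6 ≤ P j) (hd : ∀ i j, i ≤ j → P i ∣ P j) :
    LayPar P (d P ρc) (T P ρc) (L P ρc) where
  hP := h6
  hdvd := hd
  hd0 := le_rfl
  hd j := by rw [d_succ]; omega
  hdL j := by rw [d_succ]; omega
  hT _ := le_rfl

end F4

open F4 in
/-- MODULE F4 -/
theorem f4 (h1 : PieceStatement) (h2 : LayerStatement) (h3 : ChooseStatement) :
    FieldStatement := by
  intro P h6 hdvd
  choose ρc qc hq0 hq1 hbad using h3
  set S₀ := F4.S P ρc with hS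
  set dd := F4.d P ρc with hdd
  have hpar := F4.layPar P ρc h6 hdvd
  set q : ℕ → ℝ := fun j => qc j (F4.Tp P ρc j) with hq
  set σ : (Z2 → ℝ) → ℕ → Z2 → Prop := fun y j v => y v < q j with hσ
  obtain ⟨p1, p2, p3, p4⟩ := h1 S₀
  set D : (Z2 → ℝ) → ℕ → Z2 → Set Z2 := fun y => piece S₀ (σ y) with hD
  set Ψ : (Z2 → ℝ) → ℕ → Z2 → Fin 2 → Z2 → ℝ := fun y j v c => Psi P dd (D y) c j v with hΨ
  set rr : ℕ → ℕ := fun j => F4.R P ρc j + F4.ρ P ρc j + F4.G P ρc j with hrr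
  have hDeq : ∀ (y : Z2 → ℝ) (t : Z2) (j : ℕ) (v x : Z2),
      x ∈ D (fun w => y (w + t)) j v ↔ x + t ∈ D y j (v + t) := fun y t j v x => p4 (σ y) t j v x
  -- locality in terms of the booleans
  have hloc : ∀ j (y y' : Z2 → ℝ), (∀ i ≤ j, ∀ u : Z2, ‖u‖ ≤ (rr j : ℝ) → (σ y i u ↔ σ y' i u)) →
      ∀ v, 0 ∈ D y j v → 0 ∈ D y' j v ∧ ∀ c, Ψ y' j v c 0 = Ψ y j v c 0 := by
    intro j y y' hyy v hv
    have hv0 : dist (0 : Z2) v ≤ F4.ρ P ρc j + F4.G P ρc j := p2 _ _ _ _ hv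
    have hrrj : (rr j : ℝ) = F4.R P ρc j + F4.ρ P ρc j + F4.G P ρc j := by
      rw [hrr]; push_cast; ring
    have hDv : D y j v = D y' j v := by
      apply p3
      intro i hi u hu
      apply hyy i hi u
      have hu' : dist u v ≤ F4.R P ρc j := hu
      have : ‖u‖ = dist u 0 := (dist_zero_right u).symm
      rw [this, hrrj]
      have h4 := dist_triangle_right u 0 v
      linarith
    have hv' : 0 ∈ D y' j v := hDv ▸ hv
    refine ⟨hv', fun c => ?_⟩
    obtain ⟨-, -, l3, -⟩ := h2 P dd (F4.T P ρc) (F4.L P ρc) hpar c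
    refine (l3 (D y) (D y') (p1 _) (p1 _) j v hDv ?_ 0 hv).symm
    intro i hij w hw
    have hwx : ∃ x : Z2, dist x w ≤ F4.ρ P ρc i + F4.G P ρc i ∧
        dist x v ≤ F4.ρ P ρc j + F4.G P ρc j := by
      rcases hw with ⟨⟨x, hx⟩, hsub⟩ | ⟨⟨x, hx⟩, hsub⟩
      · exact ⟨x, p2 _ _ _ _ hx, p2 _ _ _ _ (hsub hx)⟩
      · exact ⟨x, p2 _ _ _ _ hx, p2 _ _ _ _ (hsub hx)⟩
    obtain ⟨x, hx1, hx2⟩ := hwx
    apply p3
    intro i' hi' u hu
    apply hyy i' (hi'.trans hij.le) u
    have hu' : dist u w ≤ F4.R P ρc i := hu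
    rw [(dist_zero_right u).symm, hrrj]
    have e1 : dist u 0 ≤ dist u w + dist x w + dist x v + dist 0 v := by
      calc dist u 0 ≤ dist u w + dist w x + dist x 0 :=
            (dist_triangle u x 0).trans (by gcongr; exact dist_triangle u w x)
        _ ≤ dist u w + dist w x + (dist x v + dist v 0) := by
            gcongr; exact dist_triangle x v 0
        _ = _ := by rw [dist_comm w x, dist_comm v 0]; ring
    have e2 := F4.hsR P ρc i j hij
    have e3 := F4.hG P ρc i j hij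
    have e4 : F4.R P ρc i + F4.ρ P ρc i + F4.G P ρc i + 2 * F4.ρ P ρc j + 2 * F4.G P ρc j ≤
        F4.R P ρc j + F4.ρ P ρc j + F4.G P ρc j := by
      have e5 : F4.L P ρc i = 2 * F4.ρ P ρc i + 2 * F4.G P ρc i := rfl
      have e6 : F4.R P ρc j = F4.sR P ρc j + 2 * F4.ρ P ρc j + 4 * F4.Tp P ρc j +
        2 * F4.G P ρc j := rfl
      omega
    have e4' : (F4.R P ρc i : ℝ) + F4.ρ P ρc i + F4.G P ρc i + 2 * F4.ρ P ρc j +
        2 * F4.G P ρc j ≤ F4.R P ρc j + F4.ρ P ρc j + F4.G P ρc j := by exact_mod_cast e4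
    linarith
  refine ⟨D, Ψ, rr, hDeq, ?_, ?_, ?_, ?_, ?_, ?_⟩
  · -- equivariance
    intro y t j v c x
    obtain ⟨-, -, -, l4⟩ := h2 P dd (F4.T P ρc) (F4.L P ρc) hpar c
    have e1 : D (fun w => y (w + t)) = fun i w => {z | z + t ∈ D y i (w + t)} := by
      funext i w
      ext z
      exact hDeq y t i w z
    change Psi P dd (D (fun w => y (w + t))) c j v x = _
    rw [e1]
    exact l4 (D y) t j v x
  · intro j y y' hyy v hv
    exact hloc j y y' (fun i _ u hu => by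
      change y u < q i ↔ y' u < q i
      rw [hyy u hu]) v hv
  · -- measurability
    intro j v c I
    set E : Set (Z2 → ℝ) := {y | 0 ∈ D y j v ∧ Ψ y j v c 0 ∈ I} with hE
    set b : (Z2 → ℝ) → (Fin (j + 1) × box (rr j) → Bool) :=
      fun y p => decide (y p.2.1 < q p.1) with hb
    have hbm : Measurable b := by
      apply measurable_pi_lambda
      intro p
      have hm : MeasurableSet {y : Z2 → ℝ | y p.2.1 < q p.1} :=
        measurableSet_lt (measurable_pi_apply _) measurable_const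
      exact measurable_to_bool (by
        convert hm using 1
        ext y
        simp [hb])
    have hmem : ∀ u : Z2, ‖u‖ ≤ (rr j : ℝ) → u ∈ box (rr j) := by
      intro u hu
      rw [box, Fintype.mem_piFinset]
      intro a
      have h4 := (norm_le_pi_norm u a).trans hu
      rw [Int.norm_eq_abs] at h4
      have h5 : |u a| ≤ (rr j : ℤ) := by exact_mod_cast h4
      rw [Finset.mem_Icc]
      exact abs_le.1 h5
    have hEb : E = b ⁻¹' (b '' E) := by
      apply Set.Subset.antisymm (Set.subset_preimage_image _ _)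
      rintro y ⟨y', hy', hbb⟩
      have h4 : ∀ i ≤ j, ∀ u : Z2, ‖u‖ ≤ (rr j : ℝ) → (σ y' i u ↔ σ y i u) := by
        intro i hi u hu
        have h5 := congrFun hbb (⟨i, by omega⟩, ⟨u, hmem u hu⟩)
        simp only [hb, decide_eq_decide] at h5
        exact h5
      obtain ⟨h5, h6⟩ := hloc j y' y h4 v hy'.1
      refine ⟨h5, ?_⟩
      rw [h6 c]
      exact hy'.2
    rw [hEb]
    exact hbm (Set.toFinite _).measurableSet
  · -- affine
    intro y j v c x x'
    obtain ⟨l1, -, -, -⟩ := h2 P dd (F4.T P ρc) (F4.L P ρc) hpar c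
    exact l1 (D y) (p1 _) j v x x'
  · -- consistency
    intro y i j v w x hij hx hx' c
    obtain ⟨-, l2, -, -⟩ := h2 P dd (F4.T P ρc) (F4.L P ρc) hpar c
    exact l2 (D y) (p1 _) i j v w hij x hx hx'
  · -- coverage
    have key : ∀ x : Z2, ∀ᵐ y ∂(Measure.infinitePi fun _ : Z2 => unif), ∀ᶠ j in atTop,
        y ∉ {y : Z2 → ℝ | ¬ ∃ v, y v < q j ∧ ∀ u : Z2, dist u x ≤ j → dist u v ≤ F4.ρ P ρc j ∧
          ∀ w, y w < q j → w ≠ v → dist u v + 4 * F4.Tp P ρc j ≤ dist u w} := by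
      intro x
      apply ae_eventually_notMem
      refine ne_of_lt ?_
      calc _ ≤ ∑' j : ℕ, ENNReal.ofReal ((1 / 2) ^ j) :=
            ENNReal.tsum_le_tsum (fun j => hbad j (F4.Tp P ρc j) x)
        _ = ENNReal.ofReal (∑' j : ℕ, (1 / 2 : ℝ) ^ j) := by
            rw [ENNReal.ofReal_tsum_of_nonneg (fun j => by positivity) summable_geometric_two]
        _ < ⊤ := ENNReal.ofReal_lt_top
    rw [← ae_all_iff] at key
    filter_upwards [key] with y hy x W
    filter_upwards [hy x, eventually_ge_atTop W] with j hj hjW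
    simp only [not_not] at hj
    obtain ⟨v, hv, hv'⟩ := hj
    refine ⟨v, fun u hu => ?_⟩
    have h4 := hv' u (hu.trans (by exact_mod_cast hjW))
    change u ∈ piece S₀ (σ y) j v
    rw [piece]
    exact Or.inl ⟨hv, h4.1, h4.2⟩

end Pool.Agent.Helper50_SFT
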