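import Pool.Agent.Helper50_SFT.Defs

/-! # Final assembly of MP_5e5085_pr from the modules -/

set_option autoImplicit false

open MeasureTheory
open scoped ENNReal NNReal

namespace Pool.Agent.Helper50_SFT

instance : IsProbabilityMeasure unif := ⟨by
  rw [unif, Measure.restrict_apply_univ]
  simp⟩

/-- the alphabet is `Fin (card Cell)` -/
noncomputable def eCell : Cell ≃ Fin (Fintype.card Cell) := Fintype.equivFin Cell

/-- allowed patterns in the alphabet `Fin _` -/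
def AA : Set ((box 100) → Fin (Fintype.card Cell)) :=
  {p | Allowed (fun u => eCell.symm (p u))}

theorem exist_part (hX : ExistStatement) :
    ∃ μ : Measure ℝ, ∃ _hμ : IsProbabilityMeasure μ,
        ∃ f : ((Fin 2 → ℤ) → ℝ) → Fin (Fintype.card Cell), Measurable f ∧
          (∀ᵐ y ∂(Measure.infinitePi (fun _ : (Fin 2 → ℤ) => μ)),
            ∃ r : ℕ, ∀ y' : (Fin 2 → ℤ) → ℝ,
              (∀ u : Fin 2 → ℤ, ‖u‖ ≤ (r : ℝ) → y' u = y u) → f y' = f y) ∧
          (∀ᵐ y ∂(Measure.infinitePi (fun _ : (Fin 2 → ℤ) => μ)),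
            ∀ v : Fin 2 → ℤ, (fun u : box 100 => f (fun w => y (w + (v + u.1)))) ∈ AA) := by
  obtain ⟨f, h1, h2, h3⟩ := hX
  refine ⟨unif, inferInstance, fun y => eCell (f y), ?_, ?_, ?_⟩
  · refine measurable_to_countable' (fun i => ?_)
    have : (fun y => eCell (f y)) ⁻¹' {i} = f ⁻¹' {eCell.symm i} := by
      ext y
      simp only [Set.mem_preimage, Set.mem_singleton_iff]
      rw [Equiv.eq_symm_apply]
    rw [this]
    exact h1 _
  · filter_upwards [h2] with y hy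
    obtain ⟨r, hr⟩ := hy
    exact ⟨r, fun y' h => by rw [hr y' h]⟩
  · filter_upwards [h3] with y hy v
    change Allowed _
    simpa using hy v

theorem lower_part (hR : ReadStatement) (hG : GrowthStatement) (hL : LowerStatement)
    (μ : Measure ℝ) (_hμ : IsProbabilityMeasure μ)
    (f : ((Fin 2 → ℤ) → ℝ) → Fin (Fintype.card Cell)) (hf : Measurable f)
    (h1 : ∀ᵐ y ∂(Measure.infinitePi (fun _ : (Fin 2 → ℤ) => μ)),
            ∃ r : ℕ, ∀ y' : (Fin 2 → ℤ) → ℝ,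
              (∀ u : Fin 2 → ℤ, ‖u‖ ≤ (r : ℝ) → y' u = y u) → f y' = f y)
    (h2 : ∀ᵐ y ∂(Measure.infinitePi (fun _ : (Fin 2 → ℤ) => μ)),
            ∀ v : Fin 2 → ℤ, (fun u : box 100 => f (fun w => y (w + (v + u.1)))) ∈ AA)
    (α : ℝ) (hα : 0 < α) :
    ∫⁻ y, ((sInf {r : ℕ | ∀ y' : (Fin 2 → ℤ) → ℝ,
                (∀ u : Fin 2 → ℤ, ‖u‖ ≤ (r : ℝ) → y' u = y u) → f y' = f y} : ℕ) : ℝ≥0∞) ^ α
              ∂(Measure.infinitePi (fun _ : (Fin 2 → ℤ) => μ)) = ∞ := by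
  refine ENNReal.eq_top_of_forall_nnreal_le (fun M => ?_)
  obtain ⟨k, r, hk1, hk2⟩ := hG α (8 * M) hα
  obtain ⟨Φ, hΦ1, hΦ2⟩ := hR k
  obtain ⟨B, hB, hB1, hB2⟩ := hL (Fin (Fintype.card Cell)) μ f hf (ell (k + 1))
    (50 * ell k + 70) r hk1 (fun X => Φ (fun v => eCell.symm (X v)))
    (fun X X' h => hΦ1 _ _ (fun v hv => by rw [h v hv]))
    (by
      filter_upwards [h2] with y hy
      have hS : InS (fun v => eCell.symm (f (fun w => y (w + v)))) := fun v => hy v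
      obtain ⟨H, hH1, hH2⟩ := hΦ2 _ hS
      exact ⟨H, hH1, hH2⟩)
  have hint : ∫⁻ y, B.indicator (fun _ => (r : ℝ≥0∞) ^ α) y
      ∂(Measure.infinitePi (fun _ : (Fin 2 → ℤ) => μ)) ≤
      ∫⁻ y, ((sInf {r : ℕ | ∀ y' : (Fin 2 → ℤ) → ℝ,
                (∀ u : Fin 2 → ℤ, ‖u‖ ≤ (r : ℝ) → y' u = y u) → f y' = f y} : ℕ) : ℝ≥0∞) ^ α
              ∂(Measure.infinitePi (fun _ : (Fin 2 → ℤ) => μ)) := by
    apply lintegral_mono_ae
    filter_upwards [h1] with y hy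
    by_cases hyB : y ∈ B
    · rw [Set.indicator_of_mem hyB]
      apply ENNReal.rpow_le_rpow _ hα.le
      have hmem := Nat.sInf_mem (s := {r : ℕ | ∀ y' : (Fin 2 → ℤ) → ℝ,
                (∀ u : Fin 2 → ℤ, ‖u‖ ≤ (r : ℝ) → y' u = y u) → f y' = f y}) hy
      set m := sInf {r : ℕ | ∀ y' : (Fin 2 → ℤ) → ℝ,
                (∀ u : Fin 2 → ℤ, ‖u‖ ≤ (r : ℝ) → y' u = y u) → f y' = f y}
      obtain ⟨y', hy1, hy2⟩ := hB1 y hyB
      have hrm : r < m := by
        by_contra hcon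
        push Not at hcon
        exact hy2 (hmem y' (fun u hu => hy1 u (hu.trans (by exact_mod_cast hcon))))
      exact_mod_cast hrm.le
    · rw [Set.indicator_of_notMem hyB]
      exact zero_le
  rw [lintegral_indicator_const hB] at hint
  refine le_trans ?_ hint
  have e1 : (r : ℝ≥0∞) ^ α = ENNReal.ofReal ((r : ℝ) ^ α) := by
    rw [← ENNReal.ofReal_rpow_of_nonneg (by positivity) hα.le, ENNReal.ofReal_natCast]
  rw [e1]
  calc (M : ℝ≥0∞) = ENNReal.ofReal (M : ℝ) := (ENNReal.ofReal_coe_nnreal).symm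
    _ ≤ ENNReal.ofReal ((r : ℝ) ^ α * (1 / (8 * (2 * ((50 * ell k + 70 : ℕ) : ℝ) + 1) ^ 2))) := by
        apply ENNReal.ofReal_le_ofReal
        rw [mul_one_div, le_div_iff₀ (by positivity)]
        calc (M : ℝ) * (8 * (2 * ((50 * ell k + 70 : ℕ) : ℝ) + 1) ^ 2)
            = 8 * M * (2 * ((50 * ell k + 70 : ℕ) : ℝ) + 1) ^ 2 := by ring
          _ ≤ _ := hk2
    _ = ENNReal.ofReal ((r : ℝ) ^ α) *
        ENNReal.ofReal (1 / (8 * (2 * ((50 * ell k + 70 : ℕ) : ℝ) + 1) ^ 2)) :=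
        ENNReal.ofReal_mul (by positivity)
    _ ≤ _ := by gcongr

end Pool.Agent.Helper50_SFT
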