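import Pool.Agent.Helper50_SFT.Defs

/-! # G: growth of the tile sizes (module G of MP_5e5085_pr) -/

set_option autoImplicit false

namespace Pool.Agent.Helper50_SFT

open Filter Topology

lemma two_pow_ge (n : ℕ) (hn : 3 ≤ n) : n + 1 ≤ 2 ^ (n - 1) := by
  induction n, hn using Nat.le_induction with
  | base => norm_num
  | succ n hn ih =>
    obtain ⟨m, rfl⟩ : ∃ m, n = m + 1 := ⟨n - 1, by omega⟩
    simp only [Nat.add_sub_cancel] at ih ⊢
    rw [pow_succ]
    omega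

lemma NN_ge (k : ℕ) : k + 3 ≤ NN k := by
  induction k with
  | zero => simp [NN]
  | succ k ih =>
    rw [NN]
    have := two_pow_ge (NN k) (by omega)
    omega

lemma sq_le_two_pow (n : ℕ) (hn : 7 ≤ n) : n ^ 2 ≤ 2 ^ (n - 1) := by
  induction n, hn using Nat.le_induction with
  | base => norm_num
  | succ n hn ih =>
    obtain ⟨m, rfl⟩ : ∃ m, n = m + 1 := ⟨n - 1, by omega⟩
    simp only [Nat.add_sub_cancel] at ih ⊢
    rw [pow_succ 2 m]
    nlinarith

lemma NN_two : NN 2 = 8 := by simp [NN]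

lemma NN_mono_ge (k : ℕ) : 8 ≤ NN (k + 2) := by
  induction k with
  | zero => simp [NN]
  | succ k ih =>
    rw [show NN (k + 1 + 2) = 2 ^ (NN (k + 2) - 1) from rfl]
    have := two_pow_ge (NN (k + 2)) (by omega)
    omega

lemma ell_le (k : ℕ) : ell (k + 2) ≤ 2 * NN (k + 2) := by
  induction k with
  | zero => simp [ell, NN]
  | succ k ih =>
    have h8 := NN_mono_ge k
    have h1 := sq_le_two_pow (NN (k + 2)) (by omega)
    rw [show ell (k + 1 + 2) = ell (k + 2) * NN (k + 2) from rfl,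
      show NN (k + 1 + 2) = 2 ^ (NN (k + 2) - 1) from rfl]
    nlinarith

lemma ell_pos' (k : ℕ) : 0 < ell k := by
  induction k with
  | zero => simp [ell]
  | succ k ih =>
    rw [ell]
    have := NN_ge k
    exact Nat.mul_pos ih (by omega)

/-- MODULE G -/
theorem g : GrowthStatement := by
  intro α M hα
  have h2 : (1 : ℝ) < 2 ^ α := Real.one_lt_rpow (by norm_num) hα
  set Q : ℝ := |M| * 58081 * 8000 ^ α + 1 with hQ
  have hQpos : 0 < Q := by positivity
  have ht := tendsto_pow_const_div_const_pow_of_one_lt 4 h2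
  have hNN : Tendsto NN atTop atTop := by
    refine tendsto_atTop_mono (fun k => ?_) tendsto_id
    have := NN_ge k
    simp only [id]
    omega
  have hev : ∀ᶠ k in atTop, ((NN k : ℕ) : ℝ) ^ 4 / (2 ^ α) ^ (NN k) < 1 / Q :=
    (ht.comp hNN).eventually (gt_mem_nhds (by positivity))
  obtain ⟨k, hk1, hk2⟩ := (hev.and (eventually_ge_atTop 30)).exists
  obtain ⟨m, rfl⟩ : ∃ m, k = m + 2 := ⟨k - 2, by omega⟩
  set N := NN (m + 2) with hN
  have hN30 : 33 ≤ N := by have := NN_ge (m + 2); omega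
  have hpow : 242000 ≤ 2 ^ (N - 1) := by
    calc 242000 ≤ 2 ^ 32 := by norm_num
      _ ≤ 2 ^ (N - 1) := Nat.pow_le_pow_right (by norm_num) (by omega)
  have hNN3 : NN (m + 2 + 1) = 2 ^ (N - 1) := rfl
  have hell3 : ell (m + 2 + 1) = ell (m + 2) * N := rfl
  have hell4 : ell (m + 2 + 1 + 1) = ell (m + 2 + 1) * 2 ^ (N - 1) := rfl
  have hellpos := ell_pos' (m + 2 + 1)
  have hell_le : ell (m + 2 + 1) ≤ 2 * N ^ 2 := by
    rw [hell3]
    have := ell_le m
    rw [← hN] at this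
    nlinarith
  refine ⟨m + 2 + 1, 2 ^ (N - 1) / 2000, ?_, ?_⟩
  · rw [hell4]
    set E := ell (m + 2 + 1)
    set W := 2 ^ (N - 1)
    have h3 : 2000 * (W / 2000) ≤ W := Nat.mul_div_le W 2000
    have h4 : W ≤ E * W := Nat.le_mul_of_pos_left _ hellpos
    have h5 : 242000 * E ≤ E * W := by
      rw [mul_comm]; exact Nat.mul_le_mul_left _ hpow
    nlinarith
  · set E := ell (m + 2 + 1)
    have hE : (E : ℝ) ≤ 2 * (N : ℝ) ^ 2 := by exact_mod_cast hell_le
    have hE1 : (1 : ℝ) ≤ E := by exact_mod_cast hellpos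
    have hN1 : (33 : ℝ) ≤ N := by exact_mod_cast hN30
    have hfl : (2 : ℝ) ^ N / 8000 ≤ ((2 ^ (N - 1) / 2000 : ℕ) : ℝ) := by
      have h3 : 2 ^ (N - 1) < 2000 * (2 ^ (N - 1) / 2000) + 2000 := by
        have := Nat.lt_mul_div_succ (2 ^ (N - 1)) (show 0 < 2000 by norm_num)
        linarith
      have h4 : ((2 ^ (N - 1) : ℕ) : ℝ) < 2000 * ((2 ^ (N - 1) / 2000 : ℕ) : ℝ) + 2000 := by
        exact_mod_cast h3
      have h5 : (4000 : ℝ) ≤ ((2 ^ (N - 1) : ℕ) : ℝ) := by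
        have : 4000 ≤ 2 ^ (N - 1) := by omega
        exact_mod_cast this
      have h6 : (2 : ℝ) ^ N = 2 * ((2 ^ (N - 1) : ℕ) : ℝ) := by
        obtain ⟨n, hn⟩ : ∃ n, N = n + 1 := ⟨N - 1, by omega⟩
        rw [hn, Nat.add_sub_cancel, pow_succ]
        push_cast
        ring
      rw [h6]
      linarith
    have h7 : ((2 : ℝ) ^ N / 8000) ^ α ≤ ((2 ^ (N - 1) / 2000 : ℕ) : ℝ) ^ α :=
      Real.rpow_le_rpow (by positivity) hfl hα.le
    refine le_trans ?_ h7
    rw [Real.div_rpow (by positivity) (by norm_num)]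
    have h8 : ((2 : ℝ) ^ N) ^ α = (2 ^ α) ^ N := by
      rw [← Real.rpow_natCast, ← Real.rpow_mul (by norm_num), mul_comm,
        Real.rpow_mul (by norm_num), Real.rpow_natCast]
    rw [h8, le_div_iff₀ (by positivity)]
    rw [div_lt_div_iff₀ (by positivity) hQpos, one_mul] at hk1
    have h9 : (2 * ((50 * E + 70 : ℕ) : ℝ) + 1) ^ 2 ≤ 58081 * (N : ℝ) ^ 4 := by
      have : 2 * ((50 * E + 70 : ℕ) : ℝ) + 1 ≤ 241 * (N : ℝ) ^ 2 := by
        push_cast
        nlinarith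
      calc (2 * ((50 * E + 70 : ℕ) : ℝ) + 1) ^ 2 ≤ (241 * (N : ℝ) ^ 2) ^ 2 := by
            gcongr
        _ = 58081 * (N : ℝ) ^ 4 := by ring
    calc M * (2 * ((50 * E + 70 : ℕ) : ℝ) + 1) ^ 2 * 8000 ^ α
        ≤ |M| * (58081 * (N : ℝ) ^ 4) * 8000 ^ α := by
          gcongr
          exact le_abs_self M
      _ = (N : ℝ) ^ 4 * (|M| * 58081 * 8000 ^ α) := by ring
      _ ≤ (N : ℝ) ^ 4 * Q := by
          gcongr
          rw [hQ]; linarith
      _ ≤ _ := hk1.le

end Pool.Agent.Helper50_SFT
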