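import Pool.Agent.Helper50_SFT.Defs

/-! # T1: structure of the rigid SFT (module T1 of MP_5e5085_pr) -/

set_option autoImplicit false

namespace Pool.Agent.Helper50_SFT

open Finset

/-! ## transposition -/

def Ty.sw : Ty → Ty
  | Ty.A => Ty.A
  | Ty.L => Ty.B
  | Ty.B => Ty.L

def Cell.sw (s : Cell) : Cell := ⟨s.py, s.px, s.ty.sw, s.d, s.u, s.l, s.r⟩

lemma okA_sw {l r d u : Ct} (h : okA l r d u) : okA d u l r := by
  obtain ⟨h1, h2, h3, h4, h5, h6, h7, h8, h9⟩ := h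
  refine ⟨h2, h1, h4, h3, h6, h5, ?_, ?_, ?_⟩
  · exact h8
  · exact h7
  · intro a b
    exact (h9 b a).symm

lemma okL_sw {l r d u : Ct} (h : okL l r d u) : okB d u l r := h

lemma okB_sw {l r d u : Ct} (h : okB l r d u) : okL d u l r := h

lemma ok_sw {s : Cell} (h : s.ok) : s.sw.ok := by
  obtain ⟨h1, h2, h3, h4, h5, h6⟩ := h
  have key : ∀ t : Ty, (t.sw = Ty.A ↔ t = Ty.A) ∧ (t.sw = Ty.L ↔ t = Ty.B) ∧
      (t.sw = Ty.B ↔ t = Ty.L) := by
    intro t; cases t <;> simp [Ty.sw]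
  refine ⟨?_, ?_, ?_, ?_, ?_, ?_⟩
  · intro a b
    exact (key s.ty).1.2 (h1 b a)
  · intro a b
    exact (key s.ty).2.1.2 (h3 b a)
  · intro a b
    exact (key s.ty).2.2.2 (h2 b a)
  · intro a
    exact okA_sw (h4 ((key s.ty).1.1 a))
  · intro a
    exact okB_sw (h6 ((key s.ty).2.1.1 a))
  · intro a
    exact okL_sw (h5 ((key s.ty).2.2.1 a))

/-! ## binary numbers -/

def num (b : ℕ → Bool) (n : ℕ) : ℕ := ∑ j ∈ range n, (b j).toNat * 2 ^ j

lemma num_succ (b : ℕ → Bool) (n : ℕ) : num b (n + 1) = num b n + (b n).toNat * 2 ^ n := by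
  simp [num, sum_range_succ]

lemma num_eq_zero (b : ℕ → Bool) (n : ℕ) : num b n = 0 ↔ ∀ j < n, b j = false := by
  simp only [num, sum_eq_zero_iff, mem_range, mul_eq_zero, Bool.toNat_eq_zero]
  constructor
  · intro h j hj
    rcases h j hj with h | h
    · exact h
    · exact absurd h (by positivity)
  · intro h j hj
    exact Or.inl (h j hj)

lemma num_lt (b : ℕ → Bool) (n : ℕ) : num b n < 2 ^ n := by
  induction n with
  | zero => simp [num]
  | succ n ih =>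
    rw [num_succ, pow_succ]
    have : (b n).toNat ≤ 1 := Bool.toNat_le (b n)
    nlinarith [Nat.pos_of_ne_zero (show 2 ^ n ≠ 0 by positivity)]

lemma num_inc (b b' c : ℕ → Bool) (n : ℕ) (h0 : c 0 = true)
    (hc : ∀ j < n, c (j + 1) = (c j && b j)) (hb : ∀ j < n, b' j = xor (b j) (c j)) :
    num b' n + 2 ^ n * (c n).toNat = num b n + 1 := by
  induction n with
  | zero => simp [num, h0]
  | succ n ih =>
    have ih' := ih (fun j hj => hc j (by omega)) (fun j hj => hb j (by omega))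
    rw [num_succ, num_succ, hc n (by omega), hb n (by omega), pow_succ]
    cases hbn : b n <;> cases hcn : c n <;> simp [hcn] at ih' ⊢ <;> omega

lemma num_congr {b b' : ℕ → Bool} {n : ℕ} (h : ∀ j < n, b j = b' j) : num b n = num b' n := by
  unfold num
  exact sum_congr rfl (fun j hj => by rw [h j (mem_range.1 hj)])

/-! ## arrays -/

/-- a renormalised world: tiles of side `n + 1` with corners at the multiples of `n + 1` -/
structure Arr (C : ℤ → ℤ → Cell) (n : ℕ) : Prop where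
  ok : ∀ X Y, (C X Y).ok
  h : ∀ X Y, (C X Y).r = (C (X + 1) Y).l
  v : ∀ X Y, (C X Y).u = (C X (Y + 1)).d
  A : ∀ X Y, ¬ ((n : ℤ) + 1 ∣ X) → ¬ ((n : ℤ) + 1 ∣ Y) → (C X Y).ty = Ty.A
  L : ∀ X Y, ((n : ℤ) + 1 ∣ X) → ¬ ((n : ℤ) + 1 ∣ Y) → (C X Y).ty = Ty.L
  B : ∀ X Y, ¬ ((n : ℤ) + 1 ∣ X) → ((n : ℤ) + 1 ∣ Y) → (C X Y).ty = Ty.B

lemma Arr.sw {C : ℤ → ℤ → Cell} {n : ℕ} (h : Arr C n) : Arr (fun X Y => (C Y X).sw) n where
  ok X Y := ok_sw (h.ok Y X)
  h X Y := h.v Y X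
  v X Y := h.h Y X
  A X Y h1 h2 := by simp [Cell.sw, h.A Y X h2 h1, Ty.sw]
  L X Y h1 h2 := by simp [Cell.sw, h.B Y X h2 h1, Ty.sw]
  B X Y h1 h2 := by simp [Cell.sw, h.L Y X h2 h1, Ty.sw]

section tile

variable {C : ℤ → ℤ → Cell} {n : ℕ}

lemma not_dvd_add {n : ℕ} (X : ℤ) (i : ℤ) (h1 : 1 ≤ i) (h2 : i ≤ n) :
    ¬ ((n : ℤ) + 1 ∣ ((n : ℤ) + 1) * X + i) := by
  intro h
  have h3 : (n : ℤ) + 1 ∣ i := (Int.dvd_add_right (Dvd.intro _ rfl)).1 h
  have h4 := Int.le_of_dvd (by omega) h3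
  omega

/-- the cell `(i, j)` of the tile `(X, Y)` -/
def tc (C : ℤ → ℤ → Cell) (n : ℕ) (X Y : ℤ) (i j : ℤ) : Cell :=
  C (((n : ℤ) + 1) * X + i) (((n : ℤ) + 1) * Y + j)

lemma tc_h (h : Arr C n) (X Y i j : ℤ) : (tc C n X Y i j).r = (tc C n X Y (i + 1) j).l := by
  unfold tc
  rw [h.h, add_assoc]

lemma tc_v (h : Arr C n) (X Y i j : ℤ) : (tc C n X Y i j).u = (tc C n X Y i (j + 1)).d := by
  unfold tc
  rw [h.v, add_assoc]

lemma tc_A (h : Arr C n) (X Y i j : ℤ) (hi : 1 ≤ i) (hi' : i ≤ n) (hj : 1 ≤ j) (hj' : j ≤ n) :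
    okA (tc C n X Y i j).l (tc C n X Y i j).r (tc C n X Y i j).d (tc C n X Y i j).u :=
  (h.ok _ _).2.2.2.1 (h.A _ _ (not_dvd_add X i hi hi') (not_dvd_add Y j hj hj'))

lemma tc_L (h : Arr C n) (X Y i j : ℤ) (hi : i = 0 ∨ i = n + 1) (hj : 1 ≤ j) (hj' : j ≤ n) :
    okL (tc C n X Y i j).l (tc C n X Y i j).r (tc C n X Y i j).d (tc C n X Y i j).u := by
  refine (h.ok _ _).2.2.2.2.1 (h.L _ _ ?_ (not_dvd_add Y j hj hj'))
  rcases hi with rfl | rfl
  · simp
  · exact ⟨X + 1, by ring⟩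

lemma tc_B (h : Arr C n) (X Y i j : ℤ) (hi : 1 ≤ i) (hi' : i ≤ n) (hj : j = 0 ∨ j = n + 1) :
    okB (tc C n X Y i j).l (tc C n X Y i j).r (tc C n X Y i j).d (tc C n X Y i j).u := by
  refine (h.ok _ _).2.2.2.2.2 (h.B _ _ (not_dvd_add X i hi hi') ?_)
  rcases hj with rfl | rfl
  · simp
  · exact ⟨Y + 1, by ring⟩

/-- `l.t` in the first column is true -/
lemma tc_lt1 (h : Arr C n) (X Y j : ℤ) (hj : 1 ≤ j) (hj' : j ≤ n) :
    (tc C n X Y 1 j).l.t = true := by
  have h1 := (tc_L h X Y 0 j (Or.inl rfl) hj hj').2.1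
  have h2 := tc_h h X Y 0 j
  rw [zero_add] at h2
  rw [← h2]
  exact h1

lemma tc_lt2 (h : Arr C n) (X Y i j : ℤ) (hi : 2 ≤ i) (hi' : i ≤ n + 1) (hj : 1 ≤ j)
    (hj' : j ≤ n) : (tc C n X Y i j).l.t = false := by
  have h1 := (tc_A h X Y (i - 1) j (by omega) (by omega) hj hj').1
  have h2 := tc_h h X Y (i - 1) j
  rw [sub_add_cancel] at h2
  rw [← h2]
  exact h1

lemma tc_dt1 (h : Arr C n) (X Y i : ℤ) (hi : 1 ≤ i) (hi' : i ≤ n) :
    (tc C n X Y i 1).d.t = true := by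
  have h1 := (tc_B h X Y i 0 hi hi' (Or.inl rfl)).2.1
  have h2 := tc_v h X Y i 0
  rw [zero_add] at h2
  rw [← h2]
  exact h1

lemma tc_dF1 (h : Arr C n) (X Y j : ℤ) (hj : 1 ≤ j) (hj' : j ≤ n) :
    (tc C n X Y 1 j).d.F = true := by
  rw [(tc_A h X Y 1 j le_rfl (by omega) hj hj').2.2.1]
  exact tc_lt1 h X Y j hj hj'

lemma tc_dF2 (h : Arr C n) (X Y i j : ℤ) (hi : 2 ≤ i) (hi' : i ≤ n) (hj : 1 ≤ j)
    (hj' : j ≤ n) : (tc C n X Y i j).d.F = false := by
  rw [(tc_A h X Y i j (by omega) hi' hj hj').2.2.1]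
  exact tc_lt2 h X Y i j hi (by omega) hj hj'

lemma tc_lF1 (h : Arr C n) (X Y i : ℤ) (hi : 1 ≤ i) (hi' : i ≤ n) :
    (tc C n X Y i 1).l.F = true := by
  rw [(tc_A h X Y i 1 hi hi' le_rfl (by omega)).2.2.2.1]
  exact tc_dt1 h X Y i hi hi'

/-- bits of the horizontal tile number -/
def bx (C : ℤ → ℤ → Cell) (n : ℕ) (X Y : ℤ) (j : ℕ) : Bool := (tc C n X Y 1 (j + 1)).l.b

def numX (C : ℤ → ℤ → Cell) (n : ℕ) (X Y : ℤ) : ℕ := num (bx C n X Y) n

/-- column-1 rules -/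
lemma col1 (h : Arr C n) (X Y : ℤ) (j : ℕ) (hj : j < n) :
    (tc C n X Y 1 (j + 2)).d.a = ((tc C n X Y 1 (j + 1)).d.a && !(bx C n X Y j)) ∧
    (tc C n X Y 1 (j + 2)).d.c = ((tc C n X Y 1 (j + 1)).d.c && (bx C n X Y j)) ∧
    (tc C n X Y 1 (j + 2)).d.Z = (tc C n X Y 1 (j + 1)).d.Z ∧
    (tc C n X Y 1 (j + 1)).r.b = xor (bx C n X Y j) (tc C n X Y 1 (j + 1)).d.c := by
  have hA := tc_A h X Y 1 (j + 1) le_rfl (by omega) (by omega) (by omega)
  have hv := tc_v h X Y 1 (j + 1)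
  have hF := tc_dF1 h X Y (j + 1) (by omega) (by omega)
  rw [show (j : ℤ) + 1 + 1 = j + 2 by ring] at hv
  obtain ⟨_, _, _, _, hZ, _, h7, _, _⟩ := hA
  rw [if_pos hF] at h7
  obtain ⟨ha, hc, hb, _⟩ := h7
  rw [hv] at ha hc hZ
  exact ⟨ha, hc, hZ, hb⟩

lemma col1_start (h : Arr C n) (hn : 1 ≤ n) (X Y : ℤ) :
    (tc C n X Y 1 1).d.a = true ∧ (tc C n X Y 1 1).d.c = true := by
  have hA := tc_A h X Y 1 1 le_rfl (by omega) (by omega) (by omega)
  have hF := tc_dF1 h X Y 1 (by omega) (by omega)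
  have hF' := tc_lF1 h X Y 1 (by omega) (by omega)
  obtain ⟨_, _, _, _, _, _, h7, _, _⟩ := hA
  rw [if_pos hF] at h7
  exact h7.2.2.2 hF'

lemma col1_Z (h : Arr C n) (X Y : ℤ) (j : ℕ) (hj : j ≤ n) :
    (tc C n X Y 1 (j + 1)).d.Z = (tc C n X Y 1 1).d.Z := by
  induction j with
  | zero => simp
  | succ j ih =>
    rw [← ih (by omega)]
    have := (col1 h X Y j (by omega)).2.2.1
    rw [show (((j + 1 : ℕ) : ℤ) + 1) = j + 2 by push_cast; ring]
    exact this

lemma col1_a (h : Arr C n) (hn : 1 ≤ n) (X Y : ℤ) (j : ℕ) (hj : j ≤ n) :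
    (tc C n X Y 1 (j + 1)).d.a = true ↔ ∀ i < j, bx C n X Y i = false := by
  induction j with
  | zero => simpa using (col1_start h hn X Y).1
  | succ j ih =>
    have h1 := (col1 h X Y j (by omega)).1
    rw [show (((j + 1 : ℕ) : ℤ) + 1) = j + 2 by push_cast; ring, h1, Bool.and_eq_true,
      ih (by omega), Bool.not_eq_true']
    constructor
    · rintro ⟨h2, h3⟩ i hi
      rcases Nat.lt_succ_iff_lt_or_eq.1 hi with h4 | rfl
      · exact h2 i h4
      · exact h3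
    · intro h2
      exact ⟨fun i hi => h2 i (by omega), h2 j (by omega)⟩

/-- the zero flag of a tile -/
def zx (C : ℤ → ℤ → Cell) (n : ℕ) (X Y : ℤ) : Bool := (tc C n X Y 1 1).d.Z

lemma zx_iff (h : Arr C n) (hn : 1 ≤ n) (X Y : ℤ) : zx C n X Y = true ↔ numX C n X Y = 0 := by
  unfold zx numX
  rw [num_eq_zero, ← col1_a h hn X Y n le_rfl, ← col1_Z h X Y n le_rfl]
  have h1 := (tc_B h X Y 1 (n + 1) le_rfl (by omega) (Or.inr rfl)).2.2.2.2.1
  rw [h1]

lemma zx_up (h : Arr C n) (hn : 1 ≤ n) (X Y : ℤ) : zx C n X (Y + 1) = zx C n X Y := by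
  unfold zx
  rw [← col1_Z h X Y n le_rfl]
  have h1 := (tc_B h X Y 1 (n + 1) le_rfl (by omega) (Or.inr rfl)).2.2.2.1
  rw [← h1, tc_v h X Y 1 (n + 1)]
  unfold tc
  rw [show ((n : ℤ) + 1) * (Y + 1) + 1 = ((n : ℤ) + 1) * Y + (n + 1 + 1) by ring]

lemma row_b (h : Arr C n) (X Y : ℤ) (j : ℕ) (hj : j < n) (i : ℕ) (hi : i < n) :
    (tc C n X Y (i + 2) (j + 1)).l.b = (tc C n X Y 1 (j + 1)).r.b := by
  induction i with
  | zero =>
    have := tc_h h X Y 1 (j + 1)
    rw [show (1 : ℤ) + 1 = ((0 : ℕ) : ℤ) + 2 by norm_num] at this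
    rw [← this]
  | succ i ih =>
    rw [← ih (by omega)]
    have hA := tc_A h X Y (i + 2) (j + 1) (by omega) (by omega) (by omega) (by omega)
    have hF := tc_dF2 h X Y (i + 2) (j + 1) (by omega) (by omega) (by omega) (by omega)
    obtain ⟨_, _, _, _, _, _, h7, _, _⟩ := hA
    rw [if_neg (by rw [hF]; decide)] at h7
    have hh := tc_h h X Y (i + 2) (j + 1)
    rw [show (((i + 1 : ℕ) : ℤ) + 2) = (i : ℤ) + 2 + 1 by push_cast; ring, ← hh]
    exact h7.2.2

lemma next_b (h : Arr C n) (hn : 1 ≤ n) (X Y : ℤ) (j : ℕ) (hj : j < n) :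
    bx C n (X + 1) Y j = xor (bx C n X Y j) (tc C n X Y 1 (j + 1)).d.c := by
  rw [← (col1 h X Y j hj).2.2.2, ← row_b h X Y j hj (n - 1) (by omega)]
  have h1 := (tc_L h X Y (n + 1) (j + 1) (Or.inr rfl) (by omega) (by omega)).2.2.1
  rw [tc_h h X Y (n + 1) (j + 1)] at h1
  rw [show (((n - 1 : ℕ) : ℤ) + 2) = (n : ℤ) + 1 by omega]
  unfold bx
  rw [← h1]
  unfold tc
  rw [show ((n : ℤ) + 1) * (X + 1) + 1 = ((n : ℤ) + 1) * X + (n + 1 + 1) by ring]

lemma numX_succ (h : Arr C n) (hn : 1 ≤ n) (X Y : ℤ) :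
    ((numX C n (X + 1) Y : ℕ) : ZMod (2 ^ n)) = (numX C n X Y : ℕ) + 1 := by
  have h1 := num_inc (bx C n X Y) (bx C n (X + 1) Y) (fun j => (tc C n X Y 1 (j + 1)).d.c) n
    (by simpa using (col1_start h hn X Y).2)
    (fun j hj => by
      have := (col1 h X Y j hj).2.1
      simpa [show (((j : ℤ) + 1) + 1) = j + 2 by ring] using this)
    (fun j hj => next_b h hn X Y j hj)
  have h2 := congrArg (fun m : ℕ => (m : ZMod (2 ^ n))) h1
  simp only [Nat.cast_add, Nat.cast_mul, Nat.cast_one] at h2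
  rw [show ((2 ^ n : ℕ) : ZMod (2 ^ n)) = 0 from ZMod.natCast_self _] at h2
  simpa [numX] using h2

end tile

/-- abstract linearity -/
lemma lin_of {M : ℕ} (f : ℤ → ℤ → ZMod M) (h1 : ∀ X Y, f (X + 1) Y = f X Y + 1)
    (h2 : ∀ X Y, f X (Y + 1) = 0 ↔ f X Y = 0) : ∀ X Y, f X Y = f 0 0 + X := by
  have h3 : ∀ (m : ℕ) X Y, f (X + m) Y = f X Y + m := by
    intro m
    induction m with
    | zero => simp
    | succ m ih =>
      intro X Y
      rw [Nat.cast_succ, ← add_assoc, h1, ih, Nat.cast_succ, add_assoc]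
  have h4 : ∀ (m : ℤ) X Y, f (X + m) Y = f X Y + m := by
    intro m X Y
    obtain ⟨k, rfl | rfl⟩ := m.eq_nat_or_neg
    · simpa using h3 k X Y
    · have := h3 k (X + -k) Y
      rw [neg_add_cancel_right] at this
      rw [this]
      simp
  have h5 : ∀ X Y, f X (Y + 1) = f X Y := by
    intro X Y
    obtain ⟨m, hm⟩ := ZMod.intCast_surjective (-(f X Y))
    have h6 : f (X + m) Y = 0 := by rw [h4, hm]; ring
    have h7 := (h2 (X + m) Y).2 h6
    rw [h4, hm] at h7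
    linear_combination h7
  have h6 : ∀ (m : ℕ) X Y, f X (Y + m) = f X Y := by
    intro m
    induction m with
    | zero => simp
    | succ m ih =>
      intro X Y
      rw [Nat.cast_succ, ← add_assoc, h5, ih]
  have h7 : ∀ (m : ℤ) X Y, f X (Y + m) = f X Y := by
    intro m X Y
    obtain ⟨k, rfl | rfl⟩ := m.eq_nat_or_neg
    · simpa using h6 k X Y
    · have := h6 k X (Y + -k)
      rw [neg_add_cancel_right] at this
      rw [this]
  intro X Y
  have h8 := h4 X 0 Y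
  have h9 := h7 Y 0 0
  rw [zero_add] at h8 h9
  rw [h8, h9]

section renorm

variable {C : ℤ → ℤ → Cell} {n : ℕ}

lemma corner_h (h : Arr C n) (X Y : ℤ) : (tc C n X Y 0 0).r = (tc C n X Y (n + 1) 0).l := by
  have key : ∀ i : ℕ, i ≤ n → (tc C n X Y (i + 1) 0).l = (tc C n X Y 0 0).r := by
    intro i
    induction i with
    | zero =>
      intro _
      rw [tc_h h X Y 0 0]
      simp
    | succ i ih =>
      intro hi
      rw [← ih (by omega)]
      have h1 := (tc_B h X Y (i + 1) 0 (by omega) (by omega) (Or.inl rfl)).1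
      rw [← h1, tc_h h X Y (i + 1) 0]
      push_cast
      rfl
  exact (key n le_rfl).symm

lemma corner_ut (h : Arr C n) (hn : 1 ≤ n) (X Y : ℤ) (zy : Bool)
    (hzy : (tc C n X Y 1 1).l.Z = zy) (hz : zx C n X Y = false) :
    (tc C n X Y 0 0).u.t = zy := by
  have hA := tc_A h X Y 1 1 le_rfl (by omega) le_rfl (by omega)
  have hL := tc_L h X Y 0 1 (Or.inl rfl) le_rfl (by omega)
  have hh := tc_h h X Y 0 1
  have hv := tc_v h X Y 0 0
  rw [zero_add] at hh hv
  have h1 := hL.2.2.2.2.2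
  rw [hh] at h1
  rw [hv, h1 (tc_lF1 h X Y 1 le_rfl (by omega))]
  · exact hzy
  · rw [(hA.2.2.2.2.2.2.2.2 (tc_dF1 h X Y 1 le_rfl (by omega))
      (tc_lF1 h X Y 1 le_rfl (by omega))).1]
    exact hz

theorem renorm (h : Arr C n) (hn : 1 ≤ n) : ∃ a b : ℤ,
    Arr (fun X Y => C (((n : ℤ) + 1) * (X + a)) (((n : ℤ) + 1) * (Y + b))) (2 ^ n - 1) ∧
    (∀ X Y, ((numX C n X Y : ℕ) : ZMod (2 ^ n)) = ((X - a : ℤ) : ZMod (2 ^ n))) ∧
    (∀ X Y, ((numX (fun X Y => (C Y X).sw) n Y X : ℕ) : ZMod (2 ^ n)) =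
      ((Y - b : ℤ) : ZMod (2 ^ n))) := by
  have hs := h.sw
  have hpos : 0 < 2 ^ n := by positivity
  have hlt1 : ∀ X Y, numX C n X Y < 2 ^ n := fun X Y => num_lt _ _
  have hlt2 : ∀ X Y, numX (fun X Y => (C Y X).sw) n X Y < 2 ^ n := fun X Y => num_lt _ _
  have hz1 : ∀ X Y, ((numX C n X Y : ℕ) : ZMod (2 ^ n)) = 0 ↔ zx C n X Y = true := by
    intro X Y
    rw [zx_iff h hn, ZMod.natCast_eq_zero_iff]
    constructor
    · intro h1
      exact Nat.eq_zero_of_dvd_of_lt h1 (hlt1 X Y)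
    · intro h1
      rw [h1]
      exact dvd_zero _
  have hz2 : ∀ X Y, ((numX (fun X Y => (C Y X).sw) n X Y : ℕ) : ZMod (2 ^ n)) = 0 ↔
      zx (fun X Y => (C Y X).sw) n X Y = true := by
    intro X Y
    rw [zx_iff hs hn, ZMod.natCast_eq_zero_iff]
    constructor
    · intro h1
      exact Nat.eq_zero_of_dvd_of_lt h1 (hlt2 X Y)
    · intro h1
      rw [h1]
      exact dvd_zero _
  have hf := lin_of (fun X Y => ((numX C n X Y : ℕ) : ZMod (2 ^ n)))
    (fun X Y => numX_succ h hn X Y)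
    (fun X Y => by rw [hz1, hz1, zx_up h hn])
  have hg := lin_of (fun X Y => ((numX (fun X Y => (C Y X).sw) n X Y : ℕ) : ZMod (2 ^ n)))
    (fun X Y => numX_succ hs hn X Y)
    (fun X Y => by rw [hz2, hz2, zx_up hs hn])
  obtain ⟨a, ha⟩ := ZMod.intCast_surjective (-(((numX C n 0 0 : ℕ) : ZMod (2 ^ n))))
  obtain ⟨b, hb⟩ := ZMod.intCast_surjective
    (-(((numX (fun X Y => (C Y X).sw) n 0 0 : ℕ) : ZMod (2 ^ n))))
  have hf' : ∀ X Y, ((numX C n X Y : ℕ) : ZMod (2 ^ n)) = ((X - a : ℤ) : ZMod (2 ^ n)) := by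
    intro X Y
    have := hf X Y
    rw [this]
    push_cast
    rw [ha]
    ring
  have hg' : ∀ X Y, ((numX (fun X Y => (C Y X).sw) n X Y : ℕ) : ZMod (2 ^ n)) =
      ((X - b : ℤ) : ZMod (2 ^ n)) := by
    intro X Y
    have := hg X Y
    rw [this]
    push_cast
    rw [hb]
    ring
  refine ⟨a, b, ?_, hf', fun X Y => hg' Y X⟩
  -- flags
  have hzx : ∀ X Y, zx C n (X + a) (Y + b) = true ↔ (((2 ^ n - 1 : ℕ) : ℤ) + 1) ∣ X := by
    intro X Y
    rw [← hz1, hf']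
    rw [show X + a - a = X by ring, ZMod.intCast_zmod_eq_zero_iff_dvd]
    rw [show (((2 ^ n - 1 : ℕ) : ℤ) + 1) = ((2 ^ n : ℕ) : ℤ) by
      rw [Nat.cast_sub (by omega)]; push_cast; ring]
  have hzy : ∀ X Y, zx (fun X Y => (C Y X).sw) n (Y + b) (X + a) = true ↔
      (((2 ^ n - 1 : ℕ) : ℤ) + 1) ∣ Y := by
    intro X Y
    rw [← hz2, hg']
    rw [show Y + b - b = Y by ring, ZMod.intCast_zmod_eq_zero_iff_dvd]
    rw [show (((2 ^ n - 1 : ℕ) : ℤ) + 1) = ((2 ^ n : ℕ) : ℤ) by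
      rw [Nat.cast_sub (by omega)]; push_cast; ring]
  have hut : ∀ X Y, ¬ ((((2 ^ n - 1 : ℕ) : ℤ) + 1) ∣ X) →
      ((C (((n : ℤ) + 1) * (X + a)) (((n : ℤ) + 1) * (Y + b))).u.t = true ↔
        (((2 ^ n - 1 : ℕ) : ℤ) + 1) ∣ Y) := by
    intro X Y hX
    have h1 : zx C n (X + a) (Y + b) = false := by
      rw [← Bool.not_eq_true, hzx]
      exact hX
    have h2 := corner_ut h hn (X + a) (Y + b) _ rfl h1
    rw [← hzy X Y]
    unfold tc at h2
    simp only [add_zero] at h2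
    rw [h2]
    rfl
  have hrt : ∀ X Y, ¬ ((((2 ^ n - 1 : ℕ) : ℤ) + 1) ∣ Y) →
      ((C (((n : ℤ) + 1) * (X + a)) (((n : ℤ) + 1) * (Y + b))).r.t = true ↔
        (((2 ^ n - 1 : ℕ) : ℤ) + 1) ∣ X) := by
    intro X Y hY
    have h1 : zx (fun X Y => (C Y X).sw) n (Y + b) (X + a) = false := by
      rw [← Bool.not_eq_true, hzy]
      exact hY
    have h2 := corner_ut hs hn (Y + b) (X + a) _ rfl h1
    rw [← hzx X Y]
    unfold tc at h2
    simp only [add_zero] at h2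
    change (C _ _).r.t = _ at h2
    rw [h2]
    rfl
  have hadjH : ∀ X Y : ℤ, (C (((n : ℤ) + 1) * (X + a)) (((n : ℤ) + 1) * (Y + b))).r =
      (C (((n : ℤ) + 1) * (X + 1 + a)) (((n : ℤ) + 1) * (Y + b))).l := by
    intro X Y
    have h1 := corner_h h (X + a) (Y + b)
    unfold tc at h1
    simp only [add_zero] at h1
    rw [h1]
    congr 2
    ring
  have hadjV : ∀ X Y : ℤ, (C (((n : ℤ) + 1) * (X + a)) (((n : ℤ) + 1) * (Y + b))).u =
      (C (((n : ℤ) + 1) * (X + a)) (((n : ℤ) + 1) * (Y + 1 + b))).d := by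
    intro X Y
    have h1 := corner_h hs (Y + b) (X + a)
    unfold tc at h1
    simp only [add_zero] at h1
    change (C _ _).u = (C _ _).d at h1
    rw [h1]
    congr 2
    ring
  have h2n : 2 ≤ 2 ^ n := by
    calc 2 = 2 ^ 1 := by norm_num
      _ ≤ 2 ^ n := Nat.pow_le_pow_right (by norm_num) hn
  have hcast : (((2 ^ n - 1 : ℕ) : ℤ) + 1) = ((2 ^ n : ℕ) : ℤ) := by
    rw [Nat.cast_sub (by omega)]; push_cast; ring
  have hpred : ∀ X : ℤ, (((2 ^ n - 1 : ℕ) : ℤ) + 1) ∣ X → ¬ ((((2 ^ n - 1 : ℕ) : ℤ) + 1) ∣ (X - 1)) := by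
    intro X h1 h2
    have h3 := dvd_sub h1 h2
    rw [sub_sub_cancel, hcast] at h3
    have h4 := Int.le_of_dvd one_pos h3
    have h5 : (2 : ℤ) ≤ ((2 ^ n : ℕ) : ℤ) := by exact_mod_cast h2n
    omega
  refine ⟨fun X Y => h.ok _ _, hadjH, hadjV, ?_, ?_, ?_⟩
  · intro X Y hX hY
    have h1 := mt (hut X Y hX).1 hY
    have h2 := mt (hrt X Y hY).1 hX
    have hok := h.ok (((n : ℤ) + 1) * (X + a)) (((n : ℤ) + 1) * (Y + b))
    cases hty : (C (((n : ℤ) + 1) * (X + a)) (((n : ℤ) + 1) * (Y + b))).ty with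
    | A => rfl
    | L => exact absurd (hok.2.2.2.2.1 hty).2.1 h2
    | B => exact absurd (hok.2.2.2.2.2 hty).2.1 h1
  · intro X Y hX hY
    have h2 := (hrt X Y hY).2 hX
    have hok := h.ok (((n : ℤ) + 1) * (X + a)) (((n : ℤ) + 1) * (Y + b))
    cases hty : (C (((n : ℤ) + 1) * (X + a)) (((n : ℤ) + 1) * (Y + b))).ty with
    | A =>
      have := (hok.2.2.2.1 hty).1
      rw [this] at h2
      exact absurd h2 (by decide)
    | L => rfl
    | B =>
      exfalso
      have h3 := (hok.2.2.2.2.2 hty).1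
      have h4 := hadjH (X - 1) Y
      rw [sub_add_cancel] at h4
      rw [h3, ← h4, hrt (X - 1) Y hY] at h2
      exact hpred X hX h2
  · intro X Y hX hY
    have h2 := (hut X Y hX).2 hY
    have hok := h.ok (((n : ℤ) + 1) * (X + a)) (((n : ℤ) + 1) * (Y + b))
    cases hty : (C (((n : ℤ) + 1) * (X + a)) (((n : ℤ) + 1) * (Y + b))).ty with
    | A =>
      have := (hok.2.2.2.1 hty).2.1
      rw [this] at h2
      exact absurd h2 (by decide)
    | L =>
      exfalso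
      have h3 := (hok.2.2.2.2.1 hty).1
      have h4 := hadjV X (Y - 1)
      rw [sub_add_cancel] at h4
      rw [h3, ← h4, hut X (Y - 1) hX] at h2
      exact hpred Y hY h2
    | B => rfl

end renorm

/-! ## base case -/

lemma px_eq {τ : ℤ → ℤ → Cell} (h : IsT τ) : ∀ x y : ℤ, (τ x y).px = (τ 0 0).px + x := by
  have h1 : ∀ (m : ℕ) x y, (τ (x + m) y).px = (τ x y).px + m := by
    intro m
    induction m with
    | zero => simp
    | succ m ih =>
      intro x y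
      rw [Nat.cast_succ, ← add_assoc, h.pxH, ih, Nat.cast_succ, add_assoc]
  have h2 : ∀ (m : ℤ) x y, (τ (x + m) y).px = (τ x y).px + m := by
    intro m x y
    obtain ⟨k, rfl | rfl⟩ := m.eq_nat_or_neg
    · simpa using h1 k x y
    · have := h1 k (x + -k) y
      rw [neg_add_cancel_right] at this
      rw [this]
      simp
  have h3 : ∀ (m : ℕ) x y, (τ x (y + m)).px = (τ x y).px := by
    intro m
    induction m with
    | zero => simp
    | succ m ih =>
      intro x y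
      rw [Nat.cast_succ, ← add_assoc, h.pxV, ih]
  have h4 : ∀ (m : ℤ) x y, (τ x (y + m)).px = (τ x y).px := by
    intro m x y
    obtain ⟨k, rfl | rfl⟩ := m.eq_nat_or_neg
    · simpa using h3 k x y
    · have := h3 k x (y + -k)
      rw [neg_add_cancel_right] at this
      rw [this]
  intro x y
  have h8 := h2 x 0 y
  have h9 := h4 y 0 0
  rw [zero_add] at h8 h9
  rw [h8, h9]

lemma IsT.sw {τ : ℤ → ℤ → Cell} (h : IsT τ) : IsT (fun x y => (τ y x).sw) where
  ok x y := ok_sw (h.ok y x)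
  adjH x y := h.adjV y x
  adjV x y := h.adjH y x
  pxH x y := h.pyV y x
  pyH x y := h.pxV y x
  pxV x y := h.pyH y x
  pyV x y := h.pxH y x

lemma base {τ : ℤ → ℤ → Cell} (h : IsT τ) : ∃ p q : ℤ,
    Arr (fun X Y => τ (p + X) (q + Y)) 2 ∧
    ∀ x y, (τ x y).px = ((x - p : ℤ) : ZMod 3) ∧ (τ x y).py = ((y - q : ℤ) : ZMod 3) := by
  obtain ⟨p, hp⟩ := ZMod.intCast_surjective (-((τ 0 0).px))
  obtain ⟨q, hq⟩ := ZMod.intCast_surjective (-((τ 0 0).py))
  have hx : ∀ x y, (τ x y).px = ((x - p : ℤ) : ZMod 3) := by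
    intro x y
    rw [px_eq h x y]
    push_cast
    rw [hp]
    ring
  have hy : ∀ x y, (τ x y).py = ((y - q : ℤ) : ZMod 3) := by
    intro x y
    have h1 : (τ x y).py = (τ 0 0).py + y := px_eq h.sw y x
    rw [h1]
    push_cast
    rw [hq]
    ring
  have hx0 : ∀ X Y : ℤ, (τ (p + X) (q + Y)).px = 0 ↔ ((2 : ℕ) : ℤ) + 1 ∣ X := by
    intro X Y
    rw [hx, add_sub_cancel_left, ZMod.intCast_zmod_eq_zero_iff_dvd]
    norm_num
  have hy0 : ∀ X Y : ℤ, (τ (p + X) (q + Y)).py = 0 ↔ ((2 : ℕ) : ℤ) + 1 ∣ Y := by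
    intro X Y
    rw [hy, add_sub_cancel_left, ZMod.intCast_zmod_eq_zero_iff_dvd]
    norm_num
  refine ⟨p, q, ⟨fun X Y => h.ok _ _, ?_, ?_, ?_, ?_, ?_⟩, fun x y => ⟨hx x y, hy x y⟩⟩
  · intro X Y
    rw [h.adjH, add_assoc]
  · intro X Y
    rw [h.adjV, add_assoc]
  · intro X Y h1 h2
    exact (h.ok _ _).1 (mt (hx0 X Y).1 h1) (mt (hy0 X Y).1 h2)
  · intro X Y h1 h2
    exact (h.ok _ _).2.1 ((hx0 X Y).2 h1) (mt (hy0 X Y).1 h2)
  · intro X Y h1 h2
    exact (h.ok _ _).2.2.1 (mt (hx0 X Y).1 h1) ((hy0 X Y).2 h2)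

/-! ## reading -/

/-- position inside the level-`k+1` tile read from the window: `(φX, φY)` -/
def rd : ℕ → (ℤ → ℤ → Cell) → ℕ × ℕ
  | 0, w => ((w 0 0).px.val, (w 0 0).py.val)
  | k + 1, w =>
    (ell (k + 1) * num (fun m => (w (-(rd k w).1 + ell k) (-(rd k w).2 + ell k * (m + 1))).l.b)
        (NN k - 1) + (rd k w).1,
     ell (k + 1) * num (fun m => (w (-(rd k w).1 + ell k * (m + 1)) (-(rd k w).2 + ell k)).d.b)
        (NN k - 1) + (rd k w).2)

lemma NN_pos (k : ℕ) : 2 ≤ NN k := by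
  induction k with
  | zero => simp [NN]
  | succ k ih =>
    rw [NN]
    calc 2 = 2 ^ 1 := by norm_num
      _ ≤ 2 ^ (NN k - 1) := Nat.pow_le_pow_right (by norm_num) (by omega)

lemma ell_pos (k : ℕ) : 0 < ell k := by
  induction k with
  | zero => simp [ell]
  | succ k ih =>
    rw [ell]
    have := NN_pos k
    positivity

lemma rd_lt (k : ℕ) (w : ℤ → ℤ → Cell) : (rd k w).1 < ell (k + 1) ∧ (rd k w).2 < ell (k + 1) := by
  induction k with
  | zero =>
    simp only [rd, ell, NN, one_mul]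
    exact ⟨ZMod.val_lt _, ZMod.val_lt _⟩
  | succ k ih =>
    have key : ∀ (b : ℕ → Bool) (i : ℕ), i < ell (k + 1) →
        ell (k + 1) * num b (NN k - 1) + i < ell (k + 1 + 1) := by
      intro b i hi
      have h1 := num_lt b (NN k - 1)
      rw [show ell (k + 1 + 1) = ell (k + 1) * NN (k + 1) from rfl,
        show NN (k + 1) = 2 ^ (NN k - 1) from rfl]
      calc ell (k + 1) * num b (NN k - 1) + i < ell (k + 1) * num b (NN k - 1) + ell (k + 1) := by
            omega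
        _ = ell (k + 1) * (num b (NN k - 1) + 1) := by ring
        _ ≤ _ := Nat.mul_le_mul_left _ (by omega)
    rw [rd]
    exact ⟨key _ _ ih.1, key _ _ ih.2⟩

lemma ell_mono (k : ℕ) : ell k ≤ ell (k + 1) := by
  rw [show ell (k + 1) = ell k * NN k from rfl]
  exact Nat.le_mul_of_pos_right _ (by have := NN_pos k; omega)

lemma rd_congr (k : ℕ) (w w' : ℤ → ℤ → Cell)
    (h : ∀ i j : ℤ, |i| ≤ 3 * ell k → |j| ≤ 3 * ell k → w i j = w' i j) : rd k w = rd k w' := by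
  induction k with
  | zero =>
    simp only [rd]
    rw [h 0 0 (by simp) (by simp)]
  | succ k ih =>
    have hm := ell_mono k
    have h1 := ih (fun i j hi hj => h i j (by
      refine hi.trans ?_; exact_mod_cast Nat.mul_le_mul_left 3 hm) (by
      refine hj.trans ?_; exact_mod_cast Nat.mul_le_mul_left 3 hm))
    obtain ⟨h2, h3⟩ := rd_lt k w'
    have hb : ∀ (i : ℕ) (m : ℕ), i < ell (k + 1) → m < NN k - 1 →
        |-(i : ℤ) + ell k * (m + 1)| ≤ 3 * ell (k + 1) := by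
      intro i m hi hm'
      have h4 : ell k * (m + 1) ≤ ell (k + 1) := by
        rw [show ell (k + 1) = ell k * NN k from rfl]
        exact Nat.mul_le_mul_left _ (by omega)
      have h4' : (ell k : ℤ) * (m + 1) ≤ ell (k + 1) := by exact_mod_cast h4
      have h5 : (0 : ℤ) ≤ (ell k : ℤ) * (m + 1) := by positivity
      rw [abs_le]
      constructor <;> omega
    have hb0 : ∀ (i : ℕ), i < ell (k + 1) → |-(i : ℤ) + ell k| ≤ 3 * ell (k + 1) := by
      intro i hi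
      have hm' : (ell k : ℤ) ≤ ell (k + 1) := by exact_mod_cast hm
      rw [abs_le]
      constructor <;> omega
    rw [rd, rd, h1]
    congr 1
    · congr 2
      apply num_congr
      intro m hm'
      rw [h _ _ (hb0 _ h2) (hb _ m h3 hm')]
    · congr 2
      apply num_congr
      intro m hm'
      rw [h _ _ (hb _ m h2 hm') (hb0 _ h3)]

lemma rd_spec {τ : ℤ → ℤ → Cell} (h : IsT τ) (k : ℕ) : ∃ p q : ℤ,
    Arr (fun X Y => τ (p + ell k * X) (q + ell k * Y)) (NN k - 1) ∧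
    ∀ x y, ((ell (k + 1) : ℤ) ∣ x - p - (rd k (fun i j => τ (x + i) (y + j))).1) ∧
      ((ell (k + 1) : ℤ) ∣ y - q - (rd k (fun i j => τ (x + i) (y + j))).2) := by
  induction k with
  | zero =>
    obtain ⟨p, q, h1, h2⟩ := base h
    refine ⟨p, q, ?_, ?_⟩
    · simpa [ell, NN] using h1
    · intro x y
      simp only [rd, add_zero]
      obtain ⟨h3, h4⟩ := h2 x y
      constructor
      · have : ((x - p - ((τ x y).px.val : ℤ) : ℤ) : ZMod 3) = 0 := by
          rw [Int.cast_sub, ← h3]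
          simp
        rw [ZMod.intCast_zmod_eq_zero_iff_dvd] at this
        simpa [ell, NN] using this
      · have : ((y - q - ((τ x y).py.val : ℤ) : ℤ) : ZMod 3) = 0 := by
          rw [Int.cast_sub, ← h4]
          simp
        rw [ZMod.intCast_zmod_eq_zero_iff_dvd] at this
        simpa [ell, NN] using this
  | succ k ih =>
    obtain ⟨p, q, h1, h2⟩ := ih
    have hN := NN_pos k
    obtain ⟨a, b, h3, h4, h5⟩ := renorm h1 (by omega)
    have hn : (((NN k - 1 : ℕ) : ℤ) + 1) = NN k := by omega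
    have he : (ell (k + 1) : ℤ) = ell k * NN k := by
      rw [show ell (k + 1) = ell k * NN k from rfl]; push_cast; rfl
    refine ⟨p + ell (k + 1) * a, q + ell (k + 1) * b, ?_, ?_⟩
    · rw [show NN (k + 1) = 2 ^ (NN k - 1) from rfl]
      convert h3 using 4
      · rw [hn, he]; ring
      · rw [hn, he]; ring
    · intro x y
      obtain ⟨⟨X, hX⟩, ⟨Y, hY⟩⟩ := h2 x y
      set w : ℤ → ℤ → Cell := fun i j => τ (x + i) (y + j) with hw
      have e1 : num (fun m => (w (-((rd k w).1 : ℤ) + ell k)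
          (-((rd k w).2 : ℤ) + ell k * (m + 1))).l.b) (NN k - 1) =
          numX (fun X Y => τ (p + ell k * X) (q + ell k * Y)) (NN k - 1) X Y := by
        unfold numX
        apply num_congr
        intro m _
        unfold bx tc
        simp only [hw]
        rw [hn]
        congr 3
        · rw [he] at hX; linear_combination hX
        · rw [he] at hY; linear_combination hY
      have e2 : num (fun m => (w (-((rd k w).1 : ℤ) + ell k * (m + 1))
          (-((rd k w).2 : ℤ) + ell k)).d.b) (NN k - 1) =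
          numX (fun X Y => ((fun X Y => τ (p + ell k * X) (q + ell k * Y)) Y X).sw)
            (NN k - 1) Y X := by
        unfold numX
        apply num_congr
        intro m _
        unfold bx tc
        simp only [hw, Cell.sw]
        rw [hn]
        congr 3
        · rw [he] at hX; linear_combination hX
        · rw [he] at hY; linear_combination hY
      rw [rd]
      simp only
      rw [e1, e2]
      have e3 : ∀ (m : ℕ) (Z : ℤ), ((m : ℕ) : ZMod (2 ^ (NN k - 1))) = ((Z : ℤ) : ZMod _) →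
          ∃ t : ℤ, Z - m = NN (k + 1) * t := by
        intro m Z hm
        have : ((Z - (m : ℤ) : ℤ) : ZMod (2 ^ (NN k - 1))) = 0 := by
          rw [Int.cast_sub, ← hm]; simp
        rw [ZMod.intCast_zmod_eq_zero_iff_dvd] at this
        exact this
      obtain ⟨t1, ht1⟩ := e3 _ _ (h4 X Y)
      obtain ⟨t2, ht2⟩ := e3 _ _ (h5 X Y)
      have he2 : (ell (k + 1 + 1) : ℤ) = ell (k + 1) * NN (k + 1) := by
        rw [show ell (k + 1 + 1) = ell (k + 1) * NN (k + 1) from rfl]; push_cast; rfl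
      constructor
      · refine ⟨t1, ?_⟩
        rw [he2]
        push_cast
        linear_combination hX + (ell (k + 1) : ℤ) * ht1
      · refine ⟨t2, ?_⟩
        rw [he2]
        push_cast
        linear_combination hY + (ell (k + 1) : ℤ) * ht2

/-- MODULE T1 -/
theorem t1 : PhaseStatement := by
  intro k
  refine ⟨fun w => (((rd k w).1 : ℕ) : ZMod (ell (k + 1))), ?_, ?_⟩
  · intro w w' h
    simp only
    rw [rd_congr k w w' h]
  · intro τ hτ x y x' y'
    obtain ⟨p, q, -, h2⟩ := rd_spec hτ k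
    have key : ∀ x y, (((rd k (fun i j => τ (x + i) (y + j))).1 : ℕ) : ZMod (ell (k + 1))) =
        ((x - p : ℤ) : ZMod (ell (k + 1))) := by
      intro x y
      have h3 := (h2 x y).1
      rw [← ZMod.intCast_zmod_eq_zero_iff_dvd] at h3
      push_cast at h3 ⊢
      linear_combination -h3
    simp only
    rw [key, key]
    push_cast
    ring

end Pool.Agent.Helper50_SFT
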